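import Pool.Agent.helper11.RPQ.SpecI
import Pool.Agent.helper11.RPQ.DET

/-!
# Row rpi:DEL (MP_07c750_an): the deterministic conclusion for bounded Lipschitz potentials
-/

set_option autoImplicit false

open scoped MatrixGroups ContDiff Topology UpperHalfPlane ComplexConjugate
open UpperHalfPlane MeasureTheory Filter Set

namespace Pool.Agent.RPQ

open Pool.Agent.RS
open Pool.Agent.MS (BA BB st pf gk Dk amk)

theorem DEL_quasi (Γ : Subgroup SL(2, ℝ)) (C0 η R ϵ t μ c : ℝ) (V : ℍ → ℝ) (φ : ℍ → ℂ) (h : QuasiL Γ C0 η R ϵ t μ V φ) :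
    QuasiL Γ C0 η R ϵ t μ V (fun z => (c : ℂ) * φ z) := by
  refine ⟨h.inv, h.bdd, h.lip, h.eps0, h.eps1, h.t0, h.mu0, h.mu1, DET_cd c 2 φ h.eig.1, ?_, ?_⟩
  · intro γ z
    show (c : ℂ) * φ (γ • z) = (c : ℂ) * φ z
    rw [h.eig.2.1]
  · intro z
    rw [DET_lap, h.eig.2.2 z]
    ring

theorem DEL_core (hWRD : WRD_stmt) (hUOL : UOL_stmt) (hAVL : AVL_stmt) (hKO1 : KO1_stmt) (hKO2 : KO2_stmt) (hKPG : KPG_stmt) (hKPS : KPS_stmt) (hOPW : OPW_stmt) (hLDV : LDV_stmt)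
    (hCWB : CWB_stmt) (hUKB : UKB_stmt) (hGKD : GKD_stmt) (hGLC : GLC_stmt) (hGFD : GFD_stmt) (hGBD : GBD_stmt) (hGWB : GWB_stmt) (hCV1 : CV1_stmt)
    (Γ : Subgroup SL(2, ℝ)) (F : Set ℍ) (α β : ℝ → ℝ) (η ε : ℝ) (hΓ : QU.SurfaceGroup Γ) (hF : QU.NiceDom Γ F) (hα : BA (1 / 8) α) (hβ : BB (1 / 8) β)
    (hη : 0 < η) (hη' : η ≤ 1 / 20) (hε : 0 < ε) (hε' : ε ≤ 1 / 20) (L n : ℕ) (e : ℝ) (hL : 1 ≤ L) (hn : 1 ≤ n) (he : 0 < e) (he1 : e ≤ 1) :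
    ∃ (C1 δ0 : ℝ), 1 ≤ C1 ∧ 0 < δ0 ∧ ∀ C C0 : ℝ, C1 ≤ C → 0 ≤ C0 → ∀ h : ℍ → ℝ, QU.Inv Γ h → (∀ z, 0 ≤ h z ∧ h z ≤ 1) → ∃ R0 : ℝ, 1 ≤ R0 ∧
    ∀ (R ϵ t μ : ℝ) (V : ℍ → ℝ) (φ : ℍ → ℂ), R0 ≤ R → QuasiL Γ C0 η R ϵ t μ V φ → nn F φ = 1 →
      (∀ l ∈ AdL L n, WS Γ F (wdK V (R * ϵ / 2) (tau R) (ut β α C η ε R) (FB F h e (tau R)) l) δ0) →
        |(∫ z in F, h z * ‖φ z‖ ^ 2) - mean F h| ≤ 2 * ((2 * L + 1) / n) + 10 * e := by
  obtain ⟨δw, hδw, hW⟩ := hWRD e L n he hn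
  obtain ⟨C1, hC1, hU⟩ := hUOL Γ F α β η ε hΓ hF hα hβ hη hη' hε hε'
  obtain ⟨C2, R2, hC2, hR2, hK⟩ := hUKB α β hα hβ η ε hη hη' hε hε'
  refine ⟨max C1 C2, δw, le_trans hC1 (le_max_left _ _), hδw, fun C C0 hC hC0 h hh h01 => ?_⟩
  obtain ⟨δ, R3, hδ, hR3, hTT⟩ := hU C C0 (le_trans (le_max_left _ _) hC) hC0
  obtain ⟨R4, hR4, hA⟩ := hAVL Γ F α β C0 η h hΓ hF hα hβ hC0 hη hη' hh h01 e he
  obtain ⟨R5, hR5⟩ : ∃ R5 : ℝ, ∀ R : ℝ, R5 ≤ R → 18 * R ^ (-δ) ≤ δw := by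
    have h1 : Tendsto (fun R : ℝ => 18 * R ^ (-δ)) atTop (𝓝 (18 * 0)) := (tendsto_rpow_neg_atTop hδ).const_mul 18
    rw [mul_zero] at h1
    have h2 := h1.eventually (gt_mem_nhds hδw)
    obtain ⟨R5, h3⟩ := eventually_atTop.1 h2
    exact ⟨R5, fun R hR => (h3 R hR).le⟩
  refine ⟨max (max R2 R3) (max (max R4 R5) 2), le_trans hR2 ((le_max_left _ _).trans (le_max_left _ _)), ?_⟩
  intro R ϵ t μ V φ hR hQ hnn hWS
  have hRR2 : R2 ≤ R := ((le_max_left _ _).trans (le_max_left _ _)).trans hR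
  have hRR3 : R3 ≤ R := ((le_max_right _ _).trans (le_max_left _ _)).trans hR
  have hRR4 : R4 ≤ R := ((le_max_left _ _).trans ((le_max_left _ _).trans (le_max_right _ _))).trans hR
  have hRR5 : R5 ≤ R := ((le_max_right _ _).trans ((le_max_left _ _).trans (le_max_right _ _))).trans hR
  have hRR6 : 2 ≤ R := ((le_max_right _ _).trans (le_max_right _ _)).trans hR
  have hR0 : 0 < R := by linarith
  have hR1 : 1 ≤ R := by linarith
  have htau : 0 < tau R := by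
    unfold tau
    have := Real.log_pos (show (1 : ℝ) < R by linarith)
    positivity
  -- the packets
  have hw00 : 0 < w0 R := Real.rpow_pos_of_pos hR0 _
  have hw01 : w0 R ≤ 1 := Real.rpow_le_one_of_one_le_of_nonpos hR1 (by norm_num)
  have hw10 : 0 < w1 R := Real.rpow_pos_of_pos hR0 _
  have hw11 : w1 R ≤ 1 := Real.rpow_le_one_of_one_le_of_nonpos hR1 (by norm_num)
  have hl0 : 0 < R ^ (-η) := Real.rpow_pos_of_pos hR0 _
  have hl1 : R ^ (-η) ≤ 1 := Real.rpow_le_one_of_one_le_of_nonpos hR1 (by linarith)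
  have hTB0 : TB (1 / 4) (cw β α (w0 R) (R ^ (-η))) := (hCWB α β (w0 R) (R ^ (-η)) hα hβ hw00 hw01 hl0 hl1).2.2.2.2.2.2.1
  have hTB1 : TB (1 / 4) (cw β α (w1 R) (R ^ (-η))) := (hCWB α β (w1 R) (R ^ (-η)) hα hβ hw10 hw11 hl0 hl1).2.2.2.2.2.2.1
  have hgk : Continuous (gk R (cw β α (w1 R) (R ^ (-η))) (cw β α (w0 R) (R ^ (-η)))) := (hGKD R _ _ hTB1 hTB0).1
  have huk : Continuous (uk β α η R) := continuous_const.mul hgk
  have hBx : MeasurableSet (Bx C η ε R) := by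
    have hent : ∀ i j, Continuous fun b : SL(2, ℝ) => b.1 i j := fun i j => (continuous_subtype_val.matrix_elem i j)
    have h1 : Bx C η ε R = ⋂ i, ⋂ j, {b : SL(2, ℝ) | |b.1 i j| ≤ 3} ∩ ({b | |b.1 1 0| ≤ R ^ (-(5 / 8) + ε)} ∩ ({b | |b.1 0 1| ≤ C * R ^ (-(1 / 4) : ℝ)} ∩ {b | |b.1 0 0 - b.1 1 1| ≤ C * R ^ (-η)})) := by
      ext b
      simp only [Bx, Set.mem_ofPred_eq, mem_iInter, mem_inter_iff]
      constructor
      · intro hb i j
        exact ⟨hb.1 i j, hb.2.1, hb.2.2.1, hb.2.2.2⟩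
      · intro hb
        exact ⟨fun i j => (hb i j).1, (hb 0 0).2.1, (hb 0 0).2.2.1, (hb 0 0).2.2.2⟩
    rw [h1]
    refine MeasurableSet.iInter fun i => MeasurableSet.iInter fun j => ?_
    refine (IsClosed.measurableSet (isClosed_le ((hent i j).abs) continuous_const)).inter ?_
    refine (IsClosed.measurableSet (isClosed_le ((hent 1 0).abs) continuous_const)).inter ?_
    refine (IsClosed.measurableSet (isClosed_le ((hent 0 1).abs) continuous_const)).inter ?_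
    exact IsClosed.measurableSet (isClosed_le (((hent 0 0).sub (hent 1 1)).abs) continuous_const)
  have hut : Measurable (ut β α C η ε R) := huk.measurable.indicator hBx
  have hutB : ∃ B : ℝ, ∀ b, ‖ut β α C η ε R b‖ ≤ B := ⟨_, fun b => (hK C R (le_trans (le_max_right _ _) hC) hRR2 b).2.1⟩
  have hutD : ∃ D : ℝ, ∀ b, ut β α C η ε R b ≠ 0 → ∀ i j, |b.1 i j| ≤ D := by
    refine ⟨3, fun b hb i j => ?_⟩
    have hb' : b ∈ Bx C η ε R := by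
      by_contra hb'
      exact hb (Set.indicator_of_notMem hb' _)
    exact hb'.1 i j
  obtain ⟨θ, CC, hθ, hCC, hLD⟩ := hLDV Γ F h e hΓ hF hh h01 he
  obtain ⟨hAm, hAi, -⟩ := hLD (tau R) htau
  -- the measure
  have hGF := (hGFD Γ F hΓ hF).1
  have hfin : IsFiniteMeasure (mG.restrict (dG F)) := ⟨by rw [Measure.restrict_apply_univ]; exact hGF.2.2.1⟩
  obtain ⟨hG1, hG2, hG3⟩ := hKPS Γ F V (R * ϵ / 2) (tau R) (ut β α C η ε R) (FB F h e (tau R)) hΓ hF hQ.inv hut hutB hutD hAm hAi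
  have hKP := (hKPG Γ F hΓ hF).1
  obtain ⟨hp1, hp2, -, -⟩ := hKP _ hG1
  obtain ⟨⟨T, hT⟩, -⟩ := hKO1 _ (mG.restrict (dG F)) _ hp1 hp2
  obtain ⟨hTn, hTf⟩ := hTT R ϵ t μ V φ hRR3 hQ T hT
  obtain ⟨-, -, hk3, -, hk5⟩ := hKO2 _ (mG.restrict (dG F))
  obtain ⟨P, hP⟩ := hk3 ((FB F h e (tau R)).indicator (fun _ => (1 : ℂ))) (measurable_const.indicator hAm) ⟨1, fun g => by
    by_cases hg : g ∈ FB F h e (tau R)
    · rw [Set.indicator_of_mem hg, norm_one]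
    · rw [Set.indicator_of_notMem hg, norm_zero]
      exact zero_le_one⟩
  obtain ⟨hPO, hPn⟩ := hk5 _ P hAm hP
  -- the vector
  have hφc : InvC Γ φ := ⟨INB_cont φ hQ.eig.1, hQ.eig.2.1⟩
  have hpkc : Continuous (pk R (cw β α (w0 R) (R ^ (-η)))) := INB_pk R _ (DET_cont _ hTB0.1)
  have hpks : HasCompactSupport (pk R (cw β α (w0 R) (R ^ (-η)))) := INB_pks R _ (hCV1.2.1 _ hTB0).2.1
  have hQc : InvG Γ (QQ β α (w0 R) (R ^ (-η)) R φ) := (hGWB Γ _ φ hΓ hpkc hpks hφc).1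
  obtain ⟨mB, hmB⟩ := (hGBD Γ ℂ _ hΓ hQc).1
  have hfc : Continuous fun g => ((Real.sqrt R : ℝ) : ℂ) * QQ β α (w0 R) (R ^ (-η)) R φ g := continuous_const.mul hQc.1
  have hmem : MemLp (fun g => ((Real.sqrt R : ℝ) : ℂ) * QQ β α (w0 R) (R ^ (-η)) R φ g) 2 (mG.restrict (dG F)) := by
    refine KO_row_memLp _ hfc.measurable ⟨Real.sqrt R * mB, fun g => ?_⟩
    rw [norm_mul, Complex.norm_real, Real.norm_eq_abs, abs_of_nonneg (Real.sqrt_nonneg R)]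
    exact mul_le_mul_of_nonneg_left (hmB g) (Real.sqrt_nonneg R)
  have hΦe := hmem.coeFn_toLp
  have hfx := hTf _ hΦe hnn.le
  have hsqn : ∀ g, ‖((Real.sqrt R : ℝ) : ℂ) * QQ β α (w0 R) (R ^ (-η)) R φ g‖ ^ 2 = R * ‖QQ β α (w0 R) (R ^ (-η)) R φ g‖ ^ 2 := by
    intro g
    rw [norm_mul, mul_pow, Complex.norm_real, Real.norm_eq_abs, sq_abs, Real.sq_sqrt hR0.le]
  obtain ⟨hA1, hA2⟩ := hA R ϵ t μ V φ hRR4 hQ
  rw [hnn, mul_one] at hA1 hA2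
  have hS0 : R * iR F (fun g => ‖QQ β α (w0 R) (R ^ (-η)) R φ g‖ ^ 2) ≤ 1 + e := by
    have := (abs_le.1 hA2).2
    linarith
  have hΦn : ‖hmem.toLp _‖ ^ 2 ≤ 1 + e := by
    rw [KO_norm]
    refine le_trans (le_of_eq ?_) hS0
    unfold iR
    rw [← integral_const_mul]
    refine integral_congr_ae ?_
    filter_upwards [hΦe] with g hg
    rw [hg, hsqn]
  have hmain := DET_hilb e L n δw he hW _ T P (hmem.toLp _) (R ^ (-δ)) (Real.rpow_pos_of_pos hR0 _) (hR5 R hRR5) hTn hPO hΦn hfx ?_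
  · -- the conclusion
    have hPΦ : ‖P (hmem.toLp _)‖ ^ 2 = R * ∫ g in FB F h e (tau R), ‖QQ β α (w0 R) (R ^ (-η)) R φ g‖ ^ 2 ∂(mG.restrict (dG F)) := by
      rw [hPn, ← integral_const_mul]
      refine integral_congr_ae ?_
      filter_upwards [ae_restrict_of_ae hΦe] with g hg
      rw [hg, hsqn]
    rw [hPΦ] at hmain
    have hmn := DET_mean F (by rw [← hGF.2.1]; exact hGF.2.2.1) h hh.1 h01
    have hms := DET_mass (μ := mG.restrict (dG F)) (avh h (tau R)) (fun g => ‖QQ β α (w0 R) (R ^ (-η)) R φ g‖ ^ 2) (DET_avc hGLC h hh.1 _).measurable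
      (hQc.1.norm.pow 2).measurable (mean F h) e (mB ^ 2) (fun g => by positivity) (fun g => pow_le_pow_left₀ (norm_nonneg _) (hmB g) 2) (fun g => by
        have h1 := DET_av h hGLC hh.1 h01 (tau R) htau g
        rw [abs_le]
        constructor
        · linarith [hmn.2]
        · linarith [hmn.1]) he.le
    have hms' := mul_le_mul_of_nonneg_left hms hR0.le
    rw [← abs_of_pos hR0, ← abs_mul, abs_of_pos hR0] at hms'
    set S := R * ∫ g, ‖QQ β α (w0 R) (R ^ (-η)) R φ g‖ ^ 2 ∂(mG.restrict (dG F)) with hSdef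
    set M := ∫ g in FB F h e (tau R), ‖QQ β α (w0 R) (R ^ (-η)) R φ g‖ ^ 2 ∂(mG.restrict (dG F)) with hMdef
    set X := ∫ g, avh h (tau R) g * ‖QQ β α (w0 R) (R ^ (-η)) R φ g‖ ^ 2 ∂(mG.restrict (dG F)) with hXdef
    have hM' : (∫ g in {g | e ≤ |avh h (tau R) g - mean F h|}, ‖QQ β α (w0 R) (R ^ (-η)) R φ g‖ ^ 2 ∂(mG.restrict (dG F))) = M := rfl
    rw [hM'] at hms'
    have hX' : R * iR F (fun g => avh h (tau R) g * ‖QQ β α (w0 R) (R ^ (-η)) R φ g‖ ^ 2) = R * X := rfl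
    have hS' : R * iR F (fun g => ‖QQ β α (w0 R) (R ^ (-η)) R φ g‖ ^ 2) = S := rfl
    rw [hX'] at hA1
    rw [hS'] at hA2 hS0
    have h3 : |R * X - mean F h * S| ≤ e * S + R * M := by
      refine le_trans (le_of_eq ?_) (hms'.trans (le_of_eq ?_))
      · congr 1
        rw [hSdef]
        ring
      · rw [hSdef]
        ring
    have hx0 : (0 : ℝ) ≤ (2 * L + 1) / n := by positivity
    have h4 : |mean F h * S - mean F h| ≤ e := by
      have : mean F h * S - mean F h = mean F h * (S - 1) := by ring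
      rw [this, abs_mul, abs_of_nonneg hmn.1]
      exact (mul_le_of_le_one_left (abs_nonneg _) hmn.2).trans hA2
    have h5 := abs_le.1 h3
    have h6 := abs_le.1 h4
    have h7 := abs_le.1 hA1
    have h8 : e * S ≤ 2 * e := by nlinarith
    have h9 : (1 + e) * ((2 * L + 1) / n + e) ≤ 2 * ((2 * L + 1) / n) + 2 * e := by nlinarith
    rw [abs_le]
    constructor <;> linarith
  · intro l hl hb
    have hne : l.map (fun x => 9 * x + 8) ≠ [] := by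
      intro h0
      have : l = [] := List.map_eq_nil_iff.1 h0
      rw [this, List.length_nil] at hl
      omega
    have h1 := hOPW Γ F V (R * ϵ / 2) (tau R) (ut β α C η ε R) (FB F h e (tau R)) hΓ hF hQ.inv hut hutB hutD hAm hAi T P hT hP (l.map (fun x => 9 * x + 8)) hne
    have h2 : WS Γ F (wdK V (R * ϵ / 2) (tau R) (ut β α C η ε R) (FB F h e (tau R)) (l.map (fun x => 9 * x + 8))) δw := hWS _ ⟨l, hl, hb, rfl⟩
    obtain ⟨hq1, hq2, -, -⟩ := hKP _ (hG3 (l.map (fun x => 9 * x + 8)))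
    have h3 := DET_ws (μ := mG.restrict (dG F)) _ hq1 hq2
    have h4 : (∫ g in dG F, ∫ h' in dG F, ‖perK Γ (wdK V (R * ϵ / 2) (tau R) (ut β α C η ε R) (FB F h e (tau R)) (l.map (fun x => 9 * x + 8))) g h'‖ ^ 2 ∂mG ∂mG) ≤ δw ^ 2 := by
      refine (ENNReal.ofReal_le_ofReal_iff (by positivity)).1 ?_
      rw [h3]
      exact h2
    exact (abs_le_of_sq_le_sq' (h1.trans h4) hδw.le).2

theorem DEL_proof (hWRD : WRD_stmt) (hUOL : UOL_stmt) (hAVL : AVL_stmt) (hKO1 : KO1_stmt) (hKO2 : KO2_stmt) (hKPG : KPG_stmt) (hKPS : KPS_stmt) (hOPW : OPW_stmt) (hLDV : LDV_stmt)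
    (hCWB : CWB_stmt) (hUKB : UKB_stmt) (hGKD : GKD_stmt) (hGLC : GLC_stmt) (hGFD : GFD_stmt) (hGBD : GBD_stmt) (hGWB : GWB_stmt) (hCV1 : CV1_stmt) : DEL_stmt := by
  intro Γ F α β η ε hΓ hF hα hβ hη hη' hε hε' L n e hL hn he he1
  obtain ⟨C1, δ0, hC1, hδ0, key⟩ := DEL_core hWRD hUOL hAVL hKO1 hKO2 hKPG hKPS hOPW hLDV hCWB hUKB hGKD hGLC hGFD hGBD hGWB hCV1 Γ F α β η ε hΓ hF hα hβ hη hη' hε hε' L n e hL hn he he1
  refine ⟨C1, δ0, hC1, hδ0, fun C C0 hC hC0 h hh h01 => ?_⟩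
  obtain ⟨R0, hR0, key⟩ := key C C0 hC hC0 h hh h01
  refine ⟨R0, hR0, fun R ϵ t μ V φ hR hQ hWS => ?_⟩
  have hφc : InvC Γ φ := ⟨INB_cont φ hQ.eig.1, hQ.eig.2.1⟩
  have hnn0 : 0 ≤ nn F φ := integral_nonneg fun z => by positivity
  rcases hnn0.eq_or_lt with h0 | h0
  · -- the mass is zero
    have hvol : volume F < ⊤ := by rw [← (hGFD Γ F hΓ hF).1.2.1]; exact (hGFD Γ F hΓ hF).1.2.2.1
    obtain ⟨K, hK, hFK⟩ := hF.rel
    obtain ⟨m, hm⟩ := (hK.image hφc.1.norm).bddAbove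
    have hb : ∀ z ∈ F, ‖φ z‖ ≤ m := fun z hz => hm ⟨z, hFK hz, rfl⟩
    have hi : IntegrableOn (fun z => ‖φ z‖ ^ 2) F := by
      refine Integrable.mono' (integrable_const_iff.2 (Or.inr ⟨by rw [Measure.restrict_apply_univ]; exact hvol⟩) : Integrable (fun _ => m ^ 2) (volume.restrict F)) (hφc.1.norm.pow 2).aestronglyMeasurable ?_
      filter_upwards [ae_restrict_mem hF.meas] with z hz
      rw [Real.norm_eq_abs, abs_of_nonneg (by positivity)]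
      exact pow_le_pow_left₀ (norm_nonneg _) (hb z hz) 2
    have h1 : ∫ z in F, h z * ‖φ z‖ ^ 2 ≤ ∫ z in F, ‖φ z‖ ^ 2 :=
      integral_mono_of_nonneg (Eventually.of_forall fun z => mul_nonneg (h01 z).1 (by positivity)) hi (Eventually.of_forall fun z => mul_le_of_le_one_left (by positivity) (h01 z).2)
    have h2 : 0 ≤ ∫ z in F, h z * ‖φ z‖ ^ 2 := integral_nonneg fun z => mul_nonneg (h01 z).1 (by positivity)
    have h3 : ∫ z in F, h z * ‖φ z‖ ^ 2 = 0 := le_antisymm (h1.trans (le_of_eq h0.symm)) h2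
    rw [h3, ← h0]
    simp
  · have hc : 0 < (Real.sqrt (nn F φ))⁻¹ := inv_pos.2 (Real.sqrt_pos.2 h0)
    have hcc : (Real.sqrt (nn F φ))⁻¹ ^ 2 * nn F φ = 1 := by
      rw [inv_pow, Real.sq_sqrt h0.le]
      exact inv_mul_cancel₀ h0.ne'
    have h1 := key R ϵ t μ V _ hR (DEL_quasi Γ C0 η R ϵ t μ (Real.sqrt (nn F φ))⁻¹ V φ hQ) (by rw [DET_nn]; exact hcc) hWS
    have h2 : (∫ z in F, h z * ‖(((Real.sqrt (nn F φ))⁻¹ : ℝ) : ℂ) * φ z‖ ^ 2) = (Real.sqrt (nn F φ))⁻¹ ^ 2 * ∫ z in F, h z * ‖φ z‖ ^ 2 := by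
      rw [← integral_const_mul]
      refine integral_congr_ae (Eventually.of_forall fun z => ?_)
      show h z * ‖(((Real.sqrt (nn F φ))⁻¹ : ℝ) : ℂ) * φ z‖ ^ 2 = _
      rw [norm_mul, mul_pow, Complex.norm_real, Real.norm_eq_abs, sq_abs]
      ring
    rw [h2] at h1
    have h3 : (∫ z in F, h z * ‖φ z‖ ^ 2) - mean F h * nn F φ = nn F φ * ((Real.sqrt (nn F φ))⁻¹ ^ 2 * (∫ z in F, h z * ‖φ z‖ ^ 2) - mean F h) := by
      rw [mul_sub, ← mul_assoc, mul_comm (nn F φ) ((Real.sqrt (nn F φ))⁻¹ ^ 2), hcc]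
      ring
    rw [h3, abs_mul, abs_of_pos h0, mul_comm (nn F φ)]
    exact mul_le_mul_of_nonneg_right h1 h0.le

end Pool.Agent.RPQ
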