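import Pool.Agent.helper29.RPQ.SpecP
import Pool.Agent.helper65.RS.BK3
import Pool.Agent.helper65.RS.BK4

/-!
# MP_07c750, project RPQ, row BU3: the diagonal of the frame bound with explicit width
-/

set_option autoImplicit false

open scoped MatrixGroups ContDiff Topology UpperHalfPlane ComplexConjugate
open UpperHalfPlane MeasureTheory Filter Set

namespace Pool.Agent.RPQ

open Pool.Agent.RS
open Pool.Agent.MS (BA BB st pf gk Dk amk)

noncomputable section

theorem BU3_SB {w w' : ℝ} {a : ℝ → ℝ} (h : w ≤ w') (ha : SB w a) : SB w' a :=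
  ⟨ha.1, fun x hx => (ha.2 x hx).trans h⟩

/-- the main term -/
theorem BU3_main {a b : ℝ → ℝ} (ha : SB (1 / 4) a) (hb : SB (1 / 4) b)
    (hb1 : ∫ x, b x ^ 2 = 1) (σ s : ℝ) (hs : 0 < s) :
    Integrable (fun t : ℝ => (|t|⁻¹ * (‖hF b (2 * s / t)‖ * ‖hF a σ‖)) ^ 2) ∧
    ∫ t : ℝ, (|t|⁻¹ * (‖hF b (2 * s / t)‖ * ‖hF a σ‖)) ^ 2 = Real.pi * ‖hF a σ‖ ^ 2 / s := by
  set P : ℝ → ℝ := fun v => (v⁻¹) ^ 2 * ‖bF (pr b a) (2 / v) σ‖ ^ 2 with hP
  have hpi := Real.pi_pos
  have h1 : ∫ v, P v = Real.pi * ‖hF a σ‖ ^ 2 := by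
    have h2 := BK4 a b ha hb σ
    rw [hb1, mul_one] at h2
    rw [← h2, hP, ← mul_assoc, mul_one_div_cancel hpi.ne', one_mul]
  have e : (fun t : ℝ => (|t|⁻¹ * (‖hF b (2 * s / t)‖ * ‖hF a σ‖)) ^ 2)
      = fun t => (s ^ 2)⁻¹ * P (t / s) := by
    funext t
    rw [hP]
    simp only
    rw [BK4_prod, norm_mul, div_div_eq_mul_div, mul_pow, inv_pow, sq_abs, inv_div, div_pow,
      inv_eq_one_div, inv_eq_one_div]
    have : s ^ 2 ≠ 0 := by positivity
    field_simp
  have hI : Integrable (fun t : ℝ => (s ^ 2)⁻¹ * P (t / s)) := by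
    by_cases hD : ‖hF a σ‖ = 0
    · have hP0 : P = fun _ => 0 := by
        funext v
        rw [hP]
        simp only
        rw [BK4_prod, norm_mul, hD]
        ring
      rw [hP0]
      simp
    · have h3 : Integrable P := by
        by_contra hn
        rw [integral_undef hn] at h1
        have : 0 < ‖hF a σ‖ := lt_of_le_of_ne (norm_nonneg _) (Ne.symm hD)
        have : 0 < Real.pi * ‖hF a σ‖ ^ 2 := by positivity
        linarith
      exact (h3.comp_div hs.ne').const_mul _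
  rw [e]
  refine ⟨hI, ?_⟩
  rw [integral_const_mul, Measure.integral_comp_div, h1, abs_of_pos hs, smul_eq_mul]
  field_simp

/-- comparison of squares -/
theorem BU3_sq (x m E δ : ℝ) (hx : 0 ≤ x) (hm : 0 ≤ m) (hδ : 0 < δ) (h : |x - m| ≤ E) :
    |x ^ 2 - m ^ 2| ≤ δ * m ^ 2 + (1 + 1 / δ) * E ^ 2 := by
  have hE : 0 ≤ E := (abs_nonneg _).trans h
  have h1 : |x ^ 2 - m ^ 2| ≤ 2 * m * E + E ^ 2 := by
    have e : x ^ 2 - m ^ 2 = (x - m) * (2 * m + (x - m)) := by ring
    rw [e, abs_mul]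
    have h2 : |2 * m + (x - m)| ≤ 2 * m + E := by
      refine (abs_add_le _ _).trans ?_
      rw [abs_of_nonneg (by positivity : 0 ≤ 2 * m)]
      linarith
    calc |x - m| * |2 * m + (x - m)| ≤ E * (2 * m + E) :=
          mul_le_mul h h2 (abs_nonneg _) hE
      _ = 2 * m * E + E ^ 2 := by ring
  have h3 : 2 * m * E ≤ δ * m ^ 2 + 1 / δ * E ^ 2 := by
    have h4 : 0 ≤ (δ * m - E) ^ 2 / δ := by positivity
    have h5 : (δ * m - E) ^ 2 / δ = δ * m ^ 2 - 2 * m * E + 1 / δ * E ^ 2 := by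
      field_simp
      ring
    linarith
  calc |x ^ 2 - m ^ 2| ≤ 2 * m * E + E ^ 2 := h1
    _ ≤ δ * m ^ 2 + 1 / δ * E ^ 2 + E ^ 2 := by linarith
    _ = _ := by ring

theorem BU3_proof (hBUA : BUA_stmt) (hBUB : BUB_stmt) (hBU2 : BU2_stmt) (hHFB : HFB_stmt)
    (hCWB : CWB_stmt) : BU3_stmt := by
  intro α β hα hβ
  obtain ⟨CA, hCA, hA⟩ := hBUA α β hα hβ
  obtain ⟨C1, hC1, hB⟩ := hBUB α β hα hβ
  obtain ⟨C2, hC2, h2⟩ := hBU2 α β hα hβ
  obtain ⟨Cb, hCb, hb⟩ := hHFB.2.2.1 β hβ.1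
  set K0 : ℝ := (CA + C1) ^ 2 + Cb ^ 2 + 2 * C2 ^ 2 with hK0
  have hK0p : 0 < K0 := by positivity
  refine ⟨2 + 2 * K0, 100, by positivity, by norm_num, ?_⟩
  intro R s w l hR hsR hw1 hw0 hl1 hl2
  have hR1 : 1 ≤ R := by linarith
  have hRpos : 0 < R := by linarith
  have hs1 : 99 / 100 * R ≤ s := by have := (abs_le.mp hsR).1; linarith
  have hs : 0 < s := by linarith
  have hwpos : 0 < w := lt_of_lt_of_le (Real.rpow_pos_of_pos hRpos _) hw1
  have hw1' : w ≤ 1 := hw0.trans (Real.rpow_le_one_of_one_le_of_nonpos hR1 (by norm_num))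
  have hlpos : 0 < l := lt_of_lt_of_le (Real.rpow_pos_of_pos hRpos _) hl1
  obtain ⟨-, -, -, hb8, ha8, -, -, -, -, hCB⟩ := hCWB α β w l hα hβ hwpos hw1' hlpos hl2
  set a' := sc l α with ha'
  set b' := st (Real.log w) β with hb'
  set C := cc (cw β α w l) with hCd
  set D : ℝ := ‖hF a' (s - R)‖ with hD
  have hD1 : D ≤ 1 := (hHFB.2.2.2 a' ha8 (s - R)).1
  have hD0 : 0 ≤ D := norm_nonneg _
  set m : ℝ → ℝ := fun t => (|t|⁻¹ * (‖hF b' (2 * s / t)‖ * D)) ^ 2 with hm
  obtain ⟨hmI, hmV⟩ := BU3_main (BU3_SB (by norm_num) ha8.1) (BU3_SB (by norm_num) hb8.1) hb8.2 (s - R) s hs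
  have hm0 : ∀ t, 0 ≤ m t := fun t => by rw [hm]; positivity
  -- powers of R
  have hrp : ∀ x y : ℝ, R ^ x * R ^ y = R ^ (x + y) := fun x y => (Real.rpow_add hRpos x y).symm
  have hrpow : ∀ (x : ℝ) (n : ℕ), (R ^ x) ^ n = R ^ (x * n) := fun x n => by
    rw [Real.rpow_mul hRpos.le, Real.rpow_natCast]
  have hp : ∀ x : ℝ, 0 < R ^ x := fun x => Real.rpow_pos_of_pos hRpos x
  set T : ℝ := R ^ (9 / 16 : ℝ) with hT
  have hT0 : 0 < T := hp _
  set h : ℝ → ℝ := fun t => (1 + (t / T) ^ 2)⁻¹ with hh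
  have hhI : Integrable h := by
    have := integrable_inv_one_add_sq.comp_div hT0.ne'
    exact this
  have hhV : ∫ t, h t = T * Real.pi := by
    have := Measure.integral_comp_div (fun u : ℝ => (1 + u ^ 2)⁻¹) T
    rw [integral_univ_inv_one_add_sq, abs_of_pos hT0, smul_eq_mul] at this
    exact this
  set δ : ℝ := R ^ (-(1 / 32) : ℝ) with hδ
  have hδ0 : 0 < δ := hp _
  have hδi : 1 / δ = R ^ (1 / 32 : ℝ) := by
    rw [hδ, Real.rpow_neg hRpos.le, one_div, inv_inv]
  set H : ℝ → ℝ := fun t => 2 * K0 * R ^ (-(51 / 32) : ℝ) * h t with hH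
  -- the pointwise estimate
  have hpt : ∀ t, |‖bI C R s t‖ ^ 2 - m t| ≤ δ * m t + H t := by
    intro t
    have hh0 : 0 < h t := by rw [hh]; positivity
    have hδm : 0 ≤ δ * m t := mul_nonneg hδ0.le (hm0 t)
    rcases le_total |t| T with ht | ht
    · -- small t
      have f1 : ‖bI C R s t‖ ≤ (CA + C1) * R ^ (-(7 / 8) : ℝ) := by
        rcases le_total |t| 4 with h4 | h4
        · refine (hB R s w l t hR1 hsR hwpos hw1' hlpos hl2 h4).trans ?_
          have g1 : √w ≤ R ^ (-(1 / 8) : ℝ) := by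
            rw [Real.sqrt_le_left (hp _).le, hrpow]
            refine hw0.trans (le_of_eq ?_)
            unfold w0
            norm_num
          have g2 : √w / (l * R) ≤ R ^ (-(7 / 8) : ℝ) := by
            rw [div_le_iff₀ (by positivity)]
            have g3 : R ^ (-(1 / 8) : ℝ) * R ≤ l * R := mul_le_mul_of_nonneg_right hl1 hRpos.le
            calc √w ≤ R ^ (-(1 / 8) : ℝ) := g1
              _ ≤ R ^ (0 : ℝ) := Real.rpow_le_rpow_of_exponent_le hR1 (by norm_num)
              _ = R ^ (-(7 / 8) : ℝ) * (R ^ (-(1 / 8) : ℝ) * R ^ (1 : ℝ)) := by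
                  rw [hrp, hrp]
                  norm_num
              _ = R ^ (-(7 / 8) : ℝ) * (R ^ (-(1 / 8) : ℝ) * R) := by rw [Real.rpow_one]
              _ ≤ R ^ (-(7 / 8) : ℝ) * (l * R) := mul_le_mul_of_nonneg_left g3 (hp _).le
          calc C1 * (√w / (l * R)) ≤ C1 * R ^ (-(7 / 8) : ℝ) := mul_le_mul_of_nonneg_left g2 hC1.le
            _ ≤ (CA + C1) * R ^ (-(7 / 8) : ℝ) :=
                mul_le_mul_of_nonneg_right (by linarith) (hp _).le
        · refine (hA R s w l t hR1 hsR hw1 hw1' hlpos hl2 h4 ht).trans ?_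
          exact mul_le_mul_of_nonneg_right (by linarith) (hp _).le
      have f2 : ‖bI C R s t‖ ^ 2 ≤ (CA + C1) ^ 2 * R ^ (-(7 / 4) : ℝ) := by
        calc ‖bI C R s t‖ ^ 2 ≤ ((CA + C1) * R ^ (-(7 / 8) : ℝ)) ^ 2 :=
              pow_le_pow_left₀ (norm_nonneg _) f1 2
          _ = (CA + C1) ^ 2 * R ^ (-(7 / 4) : ℝ) := by
              rw [mul_pow, hrpow]
              norm_num
      have f3 : m t ≤ Cb ^ 2 * R ^ (-(7 / 4) : ℝ) := by
        rcases eq_or_ne t 0 with rfl | ht0
        · have : m 0 = 0 := by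
            rw [hm]
            simp
          rw [this]
          positivity
        · have htp : 0 < |t| := abs_pos.mpr ht0
          set k : ℝ := 2 * s / t with hk
          have hk0 : k ≠ 0 := by
            rw [hk]
            positivity
          have g1 : ‖hF b' k‖ ≤ √w * (Cb / (w * k) ^ 2) := by
            rw [hb', hHFB.2.1, norm_mul, Complex.norm_real, Real.norm_eq_abs,
              abs_of_pos (Real.exp_pos _), Real.exp_log hwpos]
            have g2 : Real.exp (Real.log w / 2) = √w := by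
              rw [Real.sqrt_eq_rpow, Real.rpow_def_of_pos hwpos]
              congr 1
              ring
            rw [g2]
            refine mul_le_mul_of_nonneg_left ?_ (Real.sqrt_nonneg _)
            have g3 : 0 < (w * k) ^ 2 := by positivity
            rw [le_div_iff₀ g3]
            refine le_trans ?_ (hb (w * k))
            refine mul_le_mul_of_nonneg_left ?_ (norm_nonneg _)
            linarith
          have g4 : m t ≤ Cb ^ 2 * (w ^ 3)⁻¹ * (R ^ 4)⁻¹ * t ^ 2 := by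
            have g5 : |t|⁻¹ * (‖hF b' k‖ * D) ≤ |t|⁻¹ * (√w * (Cb / (w * k) ^ 2) * 1) := by
              refine mul_le_mul_of_nonneg_left ?_ (by positivity)
              exact mul_le_mul g1 hD1 hD0 (by positivity)
            have g6 : m t ≤ (|t|⁻¹ * (√w * (Cb / (w * k) ^ 2) * 1)) ^ 2 := by
              rw [hm]
              exact pow_le_pow_left₀ (by positivity) g5 2
            refine g6.trans ?_
            have g7 : (|t|⁻¹ * (√w * (Cb / (w * k) ^ 2) * 1)) ^ 2
                = Cb ^ 2 * (w ^ 3)⁻¹ * ((16 * s ^ 4)⁻¹) * t ^ 2 := by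
              rw [mul_pow, inv_pow, sq_abs, mul_one, mul_pow, Real.sq_sqrt hwpos.le, hk]
              field_simp
              ring
            rw [g7]
            refine mul_le_mul_of_nonneg_right ?_ (sq_nonneg _)
            refine mul_le_mul_of_nonneg_left ?_ (by positivity)
            refine inv_anti₀ (by positivity) ?_
            have g8 : (99 / 100 * R) ^ 4 ≤ s ^ 4 := pow_le_pow_left₀ (by positivity) hs1 4
            have g9 : 0 < R ^ 4 := by positivity
            nlinarith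
          refine g4.trans ?_
          have g10 : (w ^ 3)⁻¹ ≤ R ^ (9 / 8 : ℝ) := by
            have : R ^ (-(9 / 8) : ℝ) ≤ w ^ 3 := by
              calc R ^ (-(9 / 8) : ℝ) = (R ^ (-(3 / 8) : ℝ)) ^ 3 := by
                    rw [hrpow]
                    norm_num
                _ ≤ w ^ 3 := pow_le_pow_left₀ (hp _).le hw1 3
            calc (w ^ 3)⁻¹ ≤ (R ^ (-(9 / 8) : ℝ))⁻¹ := inv_anti₀ (hp _) this
              _ = R ^ (9 / 8 : ℝ) := by
                  rw [Real.rpow_neg hRpos.le, inv_inv]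
          have g11 : t ^ 2 ≤ R ^ (9 / 8 : ℝ) := by
            calc t ^ 2 = |t| ^ 2 := (sq_abs t).symm
              _ ≤ T ^ 2 := pow_le_pow_left₀ (abs_nonneg _) ht 2
              _ = R ^ (9 / 8 : ℝ) := by
                  rw [hT, hrpow]
                  norm_num
          have g12 : (R ^ 4)⁻¹ = R ^ (-4 : ℝ) := by
            rw [Real.rpow_neg hRpos.le]
            norm_cast
          calc Cb ^ 2 * (w ^ 3)⁻¹ * (R ^ 4)⁻¹ * t ^ 2
              ≤ Cb ^ 2 * R ^ (9 / 8 : ℝ) * (R ^ 4)⁻¹ * R ^ (9 / 8 : ℝ) := by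
                refine mul_le_mul ?_ g11 (sq_nonneg _) (by positivity)
                refine mul_le_mul_of_nonneg_right ?_ (by positivity)
                exact mul_le_mul_of_nonneg_left g10 (by positivity)
            _ = Cb ^ 2 * ((R ^ (9 / 8 : ℝ) * R ^ (-4 : ℝ)) * R ^ (9 / 8 : ℝ)) := by
                rw [g12]
                ring
            _ = Cb ^ 2 * R ^ (-(7 / 4) : ℝ) := by
                rw [hrp, hrp]
                norm_num
      have f4 : |‖bI C R s t‖ ^ 2 - m t| ≤ K0 * R ^ (-(7 / 4) : ℝ) := by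
        have g0 : 0 ≤ ‖bI C R s t‖ ^ 2 := by positivity
        have g1 := hm0 t
        have g2 : 0 < R ^ (-(7 / 4) : ℝ) := hp _
        have g3 : ((CA + C1) ^ 2 + Cb ^ 2) * R ^ (-(7 / 4) : ℝ) ≤ K0 * R ^ (-(7 / 4) : ℝ) :=
          mul_le_mul_of_nonneg_right (by rw [hK0]; nlinarith) g2.le
        rw [abs_le]
        constructor <;> nlinarith
      have f5 : R ^ (-(7 / 4) : ℝ) ≤ R ^ (-(51 / 32) : ℝ) :=
        Real.rpow_le_rpow_of_exponent_le hR1 (by norm_num)
      have f6 : 1 ≤ 2 * h t := by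
        rw [hh]
        simp only
        rw [← div_eq_mul_inv, le_div_iff₀ (by positivity), one_mul]
        have : (t / T) ^ 2 ≤ 1 := by
          rw [div_pow, div_le_one (by positivity), ← sq_abs t]
          exact pow_le_pow_left₀ (abs_nonneg _) ht 2
        linarith
      have f7 : K0 * R ^ (-(7 / 4) : ℝ) ≤ H t := by
        calc K0 * R ^ (-(7 / 4) : ℝ) ≤ K0 * R ^ (-(51 / 32) : ℝ) :=
              mul_le_mul_of_nonneg_left f5 hK0p.le
          _ ≤ K0 * R ^ (-(51 / 32) : ℝ) * (2 * h t) :=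
              le_mul_of_one_le_right (by have := hp (-(51 / 32)); positivity) f6
          _ = H t := by
              rw [hH]
              ring
      linarith
    · -- large t
      have htp : 0 < |t| := lt_of_lt_of_le hT0 ht
      have f1 := h2 R s w l t hR hsR hwpos hw1' hlpos hl2 ht
      rw [← ha', ← hb', ← hCd] at f1
      set z : ℂ := (((|t|)⁻¹ : ℝ) : ℂ) * Complex.exp (((2 * s * Real.log |t| : ℝ) : ℂ) * Complex.I) *
        (hF b' (2 * s / t) * hF a' (s - R)) with hz
      have f2 : ‖z‖ = |t|⁻¹ * (‖hF b' (2 * s / t)‖ * D) := by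
        rw [hz, norm_mul, norm_mul, norm_mul, Complex.norm_exp_ofReal_mul_I, Complex.norm_real,
          Real.norm_eq_abs, abs_of_pos (by positivity), mul_one]
      have f3 : |‖bI C R s t‖ - ‖z‖| ≤ C2 * (√w * R ^ (-(1 / 8) : ℝ) / |t|) :=
        (abs_norm_sub_norm_le _ _).trans f1
      have f4 := BU3_sq _ _ _ δ (norm_nonneg (bI C R s t)) (norm_nonneg z) hδ0 f3
      have f5 : ‖z‖ ^ 2 = m t := by
        rw [f2, hm]
      rw [f5] at f4
      refine f4.trans ?_
      have g1 : (1 + 1 / δ) ≤ 2 * R ^ (1 / 32 : ℝ) := by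
        rw [hδi]
        have : 1 ≤ R ^ (1 / 32 : ℝ) := Real.one_le_rpow hR1 (by norm_num)
        linarith
      have g2 : (C2 * (√w * R ^ (-(1 / 8) : ℝ) / |t|)) ^ 2
          ≤ C2 ^ 2 * R ^ (-(1 / 2) : ℝ) * (t ^ 2)⁻¹ := by
        have e1 : (C2 * (√w * R ^ (-(1 / 8) : ℝ) / |t|)) ^ 2
            = C2 ^ 2 * (w * R ^ (-(1 / 4) : ℝ)) * (t ^ 2)⁻¹ := by
          rw [mul_pow, div_pow, mul_pow, Real.sq_sqrt hwpos.le, sq_abs, hrpow]
          rw [show (-(1 / 8) : ℝ) * ((2 : ℕ) : ℝ) = -(1 / 4) by norm_num]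
          ring
        rw [e1]
        refine mul_le_mul_of_nonneg_right ?_ (by positivity)
        refine mul_le_mul_of_nonneg_left ?_ (by positivity)
        calc w * R ^ (-(1 / 4) : ℝ) ≤ R ^ (-(1 / 4) : ℝ) * R ^ (-(1 / 4) : ℝ) :=
              mul_le_mul_of_nonneg_right hw0 (hp _).le
          _ = R ^ (-(1 / 2) : ℝ) := by
              rw [hrp]
              norm_num
      have g3 : (t ^ 2)⁻¹ ≤ 2 * R ^ (-(9 / 8) : ℝ) * h t := by
        have e1 : R ^ (-(9 / 8) : ℝ) = (T ^ 2)⁻¹ := by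
          rw [hT, hrpow, ← Real.rpow_neg hRpos.le]
          norm_num
        rw [e1, hh]
        simp only
        have e2 : 1 ≤ (t / T) ^ 2 := by
          rw [div_pow, one_le_div (by positivity), ← sq_abs t]
          exact pow_le_pow_left₀ hT0.le ht 2
        have ht2 : 0 < t ^ 2 := by
          rw [← sq_abs]
          positivity
        have ht0 : t ≠ 0 := abs_pos.mp htp
        rw [← div_eq_mul_inv, le_div_iff₀ (by positivity)]
        calc (t ^ 2)⁻¹ * (1 + (t / T) ^ 2) ≤ (t ^ 2)⁻¹ * (2 * (t / T) ^ 2) :=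
              mul_le_mul_of_nonneg_left (by linarith) (by positivity)
          _ = 2 * (T ^ 2)⁻¹ := by
              field_simp
      have g4 : (1 + 1 / δ) * (C2 * (√w * R ^ (-(1 / 8) : ℝ) / |t|)) ^ 2 ≤ H t := by
        have hpp := hp (1 / 32)
        have hpq := hp (-(1 / 2))
        calc (1 + 1 / δ) * (C2 * (√w * R ^ (-(1 / 8) : ℝ) / |t|)) ^ 2
            ≤ (2 * R ^ (1 / 32 : ℝ)) * (C2 ^ 2 * R ^ (-(1 / 2) : ℝ) * (2 * R ^ (-(9 / 8) : ℝ) * h t)) := by
              refine mul_le_mul g1 (g2.trans ?_) (sq_nonneg _) (by positivity)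
              exact mul_le_mul_of_nonneg_left g3 (by positivity)
          _ = 2 * (2 * C2 ^ 2) * (R ^ (1 / 32 : ℝ) * R ^ (-(1 / 2) : ℝ) * R ^ (-(9 / 8) : ℝ)) * h t := by
              ring
          _ = 2 * (2 * C2 ^ 2) * R ^ (-(51 / 32) : ℝ) * h t := by
              rw [hrp, hrp]
              norm_num
          _ ≤ 2 * K0 * R ^ (-(51 / 32) : ℝ) * h t := by
              refine mul_le_mul_of_nonneg_right ?_ hh0.le
              refine mul_le_mul_of_nonneg_right ?_ (hp _).le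
              rw [hK0]
              nlinarith [sq_nonneg (CA + C1), sq_nonneg Cb]
      linarith
  -- integration
  have hHI : Integrable H := hhI.const_mul _
  have hFm : AEStronglyMeasurable (fun t => ‖bI C R s t‖ ^ 2) volume :=
    ((BK3_meas hCB R s).norm.pow 2).aestronglyMeasurable
  have hdom : Integrable (fun t => (1 + δ) * m t + H t) := (hmI.const_mul _).add hHI
  have hFI : Integrable (fun t => ‖bI C R s t‖ ^ 2) := by
    refine hdom.mono' hFm (Filter.Eventually.of_forall fun t => ?_)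
    rw [Real.norm_of_nonneg (by positivity)]
    have := (abs_le.mp (hpt t)).2
    have e : (1 + δ) * m t = m t + δ * m t := by ring
    linarith
  have hmain : |(∫ t, ‖bI C R s t‖ ^ 2) - ∫ t, m t| ≤ δ * (Real.pi * D ^ 2 / s)
      + 2 * K0 * R ^ (-(51 / 32) : ℝ) * (T * Real.pi) := by
    rw [← integral_sub hFI hmI]
    calc |∫ t, (‖bI C R s t‖ ^ 2 - m t)| ≤ ∫ t, |‖bI C R s t‖ ^ 2 - m t| :=
          abs_integral_le_integral_abs
      _ ≤ ∫ t, (δ * m t + H t) :=
          integral_mono (hFI.sub hmI).abs ((hmI.const_mul _).add hHI) hpt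
      _ = δ * (∫ t, m t) + ∫ t, H t := by
          rw [integral_add (hmI.const_mul _) hHI, integral_const_mul]
      _ = _ := by
          rw [hmV, hH, integral_const_mul, hhV]
  rw [hmV] at hmain
  unfold bk
  have hpi := Real.pi_pos
  have e1 : R * (1 / Real.pi * ∫ t, ‖bI C R s t‖ ^ 2) - R / s * D ^ 2
      = R / Real.pi * ((∫ t, ‖bI C R s t‖ ^ 2) - Real.pi * D ^ 2 / s) := by
    field_simp
  rw [e1, abs_mul, abs_of_pos (by positivity)]
  calc R / Real.pi * |(∫ t, ‖bI C R s t‖ ^ 2) - Real.pi * D ^ 2 / s|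
      ≤ R / Real.pi * (δ * (Real.pi * D ^ 2 / s)
        + 2 * K0 * R ^ (-(51 / 32) : ℝ) * (T * Real.pi)) :=
        mul_le_mul_of_nonneg_left hmain (by positivity)
    _ = δ * (R / s * D ^ 2) + 2 * K0 * (R * R ^ (-(51 / 32) : ℝ) * T) := by
        field_simp
    _ ≤ δ * 2 + 2 * K0 * R ^ (-(1 / 32) : ℝ) := by
        have g1 : R / s * D ^ 2 ≤ 2 := by
          have g2 : R / s ≤ 2 := by
            rw [div_le_iff₀ hs]
            linarith
          have g3 : D ^ 2 ≤ 1 := pow_le_one₀ hD0 hD1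
          calc R / s * D ^ 2 ≤ 2 * 1 := mul_le_mul g2 g3 (by positivity) (by norm_num)
            _ = 2 := by norm_num
        have g4 : R * R ^ (-(51 / 32) : ℝ) * T = R ^ (-(1 / 32) : ℝ) := by
          rw [hT]
          nth_rewrite 1 [← Real.rpow_one R]
          rw [hrp, hrp]
          norm_num
        rw [g4]
        have := mul_le_mul_of_nonneg_left g1 hδ0.le
        linarith
    _ = (2 + 2 * K0) * R ^ (-(1 / 32) : ℝ) := by
        rw [hδ]
        ring

end

end Pool.Agent.RPQ
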